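import Mathlib

/-!
# A polynomial hypergroup with `h(2) = 15/8 < 2`
-/

set_option autoImplicit false

namespace Pool.Agent.Results.MP_382e70_an.SmallHaarWeight

open Finset Polynomial

/-- `P` is the sequence of polynomials with the recurrence coefficients `a`, `b`, `c`. -/
structure PolySeq (a b c : ℕ → ℝ) (P : ℕ → ℝ[X]) : Prop where
  a_pos : ∀ n, 0 < a n
  b_nonneg : ∀ n, 0 ≤ b n
  c_zero : c 0 = 0
  c_pos : ∀ n, 0 < c (n + 1)
  sum_one : ∀ n, a n + b n + c n = 1
  P_zero : P 0 = 1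
  P_one : C (a 0) * P 1 = X - C (b 0)
  P_rec : ∀ n, P 1 * P (n + 1) = C (a (n + 1)) * P (n + 2) + C (b (n + 1)) * P (n + 1) +
    C (c (n + 1)) * P n

/-- The linearization coefficients are nonnegative. -/
def IsHypergroup (P : ℕ → ℝ[X]) : Prop :=
  ∀ m n, m ≤ n → ∃ g : ℕ → ℝ, (∀ k, 0 ≤ g k) ∧ P m * P n = ∑ k ∈ Icc (n - m) (n + m), C (g k) * P k

/-- the Haar weights -/
noncomputable def haar (a c : ℕ → ℝ) (n : ℕ) : ℝ := (∏ k ∈ Ico 1 n, a k) / ∏ k ∈ Icc 1 n, c k

/-! ### The example -/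

/-- `a_n` -/
noncomputable def a : ℕ → ℝ
  | 0 => 1
  | 1 => 3 / 5
  | 2 => 1 / 5
  | _ + 3 => 1 / 20

/-- `b_n` -/
noncomputable def b : ℕ → ℝ
  | 0 => 0
  | 1 => 0
  | 2 => 0
  | _ + 3 => 47 / 50

/-- `c_n` -/
noncomputable def c : ℕ → ℝ
  | 0 => 0
  | 1 => 2 / 5
  | 2 => 4 / 5
  | _ + 3 => 1 / 100

/-- the polynomials -/
noncomputable def P : ℕ → ℝ[X]
  | 0 => 1
  | 1 => X
  | n + 2 => C (1 / a (n + 1)) * ((X - C (b (n + 1))) * P (n + 1) - C (c (n + 1)) * P n)

lemma a_pos (n : ℕ) : 0 < a n := by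
  match n with
  | 0 => norm_num [a]
  | 1 => norm_num [a]
  | 2 => norm_num [a]
  | _ + 3 => norm_num [a]

lemma polySeq : PolySeq a b c P where
  a_pos := a_pos
  b_nonneg n := by
    match n with
    | 0 => norm_num [b]
    | 1 => norm_num [b]
    | 2 => norm_num [b]
    | _ + 3 => norm_num [b]
  c_zero := rfl
  c_pos n := by
    match n with
    | 0 => norm_num [c]
    | 1 => norm_num [c]
    | _ + 2 => norm_num [c]
  sum_one n := by
    match n with
    | 0 => norm_num [a, b, c]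
    | 1 => norm_num [a, b, c]
    | 2 => norm_num [a, b, c]
    | _ + 3 => norm_num [a, b, c]
  P_zero := rfl
  P_one := by
    change C (1 : ℝ) * X = X - C 0
    rw [map_one, map_zero, one_mul, sub_zero]
  P_rec n := by
    have h1 : P (n + 2) = C (1 / a (n + 1)) * ((X - C (b (n + 1))) * P (n + 1) - C (c (n + 1)) * P n) := by
      rw [P]
    have h2 : C (a (n + 1)) * C (1 / a (n + 1)) = (1 : ℝ[X]) := by
      rw [← map_mul, mul_one_div_cancel (a_pos _).ne', map_one]
    have h3 : P 1 = X := by rw [P]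
    rw [h1, h3, ← mul_assoc, h2]
    ring

/-- the polynomial functions -/
noncomputable def p (n : ℕ) (t : ℝ) : ℝ := (P n).eval t

lemma p_zero (t : ℝ) : p 0 t = 1 := by simp [p, P]

lemma p_one (t : ℝ) : p 1 t = t := by simp [p, P]

lemma hx (n : ℕ) (t : ℝ) :
    t * p (n + 1) t = a (n + 1) * p (n + 2) t + b (n + 1) * p (n + 1) t + c (n + 1) * p n t := by
  have h := congrArg (Polynomial.eval t) (polySeq.P_rec n)
  simp only [Polynomial.eval_mul, Polynomial.eval_add, Polynomial.eval_C] at h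
  have h1 : (P 1).eval t = t := p_one t
  rw [h1] at h
  exact h

lemma hx1 (t : ℝ) : t * p 1 t = 3 / 5 * p 2 t + 2 / 5 * p 0 t := by
  have h := hx 0 t
  simp only [a, b, c] at h
  linear_combination h

lemma hx2 (t : ℝ) : t * p 2 t = 1 / 5 * p 3 t + 4 / 5 * p 1 t := by
  have h := hx 1 t
  simp only [a, b, c] at h
  linear_combination h

lemma hx3 (j : ℕ) (t : ℝ) :
    t * p (j + 3) t = 1 / 20 * p (j + 4) t + 47 / 50 * p (j + 3) t + 1 / 100 * p (j + 2) t :=
  hx (j + 2) t

lemma e2 (t : ℝ) : p 2 t = (5 * t ^ 2 - 2) / 3 := by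
  have h := hx1 t
  rw [p_one, p_zero] at h
  linear_combination - 5 / 3 * h

lemma e3 (t : ℝ) : p 3 t = 5 * t * p 2 t - 4 * t := by
  have h := hx2 t
  rw [p_one] at h
  linear_combination - 5 * h

/-! ### Nonnegative combinations -/

/-- `f` is a nonnegative combination of the `p k` with `lo ≤ k ≤ hi`. -/
def K (lo hi : ℕ) (f : ℝ → ℝ) : Prop :=
  ∃ g : ℕ → ℝ, (∀ k, 0 ≤ g k) ∧ ∀ t, f t = ∑ k ∈ Icc lo hi, g k * p k t

lemma K.add {lo hi : ℕ} {f f' : ℝ → ℝ} (h : K lo hi f) (h' : K lo hi f') :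
    K lo hi fun t => f t + f' t := by
  obtain ⟨g, hg, e⟩ := h
  obtain ⟨g', hg', e'⟩ := h'
  refine ⟨fun k => g k + g' k, fun k => add_nonneg (hg k) (hg' k), fun t => ?_⟩
  beta_reduce
  rw [e, e', ← sum_add_distrib]
  exact sum_congr rfl fun k _ => by ring

lemma K.smul {lo hi : ℕ} {f : ℝ → ℝ} (h : K lo hi f) {r : ℝ} (hr : 0 ≤ r) :
    K lo hi fun t => r * f t := by
  obtain ⟨g, hg, e⟩ := h
  refine ⟨fun k => r * g k, fun k => mul_nonneg hr (hg k), fun t => ?_⟩
  beta_reduce
  rw [e, mul_sum]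
  exact sum_congr rfl fun k _ => by ring

lemma K.mono {lo hi lo' hi' : ℕ} {f : ℝ → ℝ} (h : K lo hi f) (h1 : lo' ≤ lo) (h2 : hi ≤ hi') :
    K lo' hi' f := by
  obtain ⟨g, hg, e⟩ := h
  refine ⟨fun k => if k ∈ Icc lo hi then g k else 0, fun k => ?_, fun t => ?_⟩
  · dsimp only
    split_ifs
    · exact hg k
    · exact le_rfl
  · rw [e, ← sum_subset (Icc_subset_Icc h1 h2)]
    · exact sum_congr rfl fun k hk => by
        beta_reduce
        rw [if_pos hk]
    · intro k _ hk
      beta_reduce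
      rw [if_neg hk, zero_mul]

lemma K.single {lo hi i : ℕ} (h1 : lo ≤ i) (h2 : i ≤ hi) : K lo hi (p i) := by
  refine ⟨fun k => if k = i then 1 else 0, fun k => ?_, fun t => ?_⟩
  · dsimp only
    split_ifs
    · exact zero_le_one
    · exact le_rfl
  · simp only [ite_mul, one_mul, zero_mul]
    rw [sum_ite_eq', if_pos (mem_Icc.2 ⟨h1, h2⟩)]

lemma K.list {lo hi : ℕ} (L : List (ℝ × ℕ)) (h : ∀ x ∈ L, 0 ≤ x.1 ∧ lo ≤ x.2 ∧ x.2 ≤ hi) :
    K lo hi fun t => (L.map fun x => x.1 * p x.2 t).sum := by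
  induction L with
  | nil => exact ⟨fun _ => 0, fun _ => le_rfl, fun t => by simp⟩
  | cons x L ih =>
    have h1 := h x (List.mem_cons_self)
    have h2 := ih fun y hy => h y (List.mem_cons_of_mem _ hy)
    simpa using ((K.single h1.2.1 h1.2.2).smul h1.1).add h2

lemma K.of_list {lo hi : ℕ} {f : ℝ → ℝ} (L : List (ℝ × ℕ))
    (h : ∀ x ∈ L, 0 ≤ x.1 ∧ lo ≤ x.2 ∧ x.2 ≤ hi)
    (e : ∀ t, f t = (L.map fun x => x.1 * p x.2 t).sum) : K lo hi f := by
  have h1 := K.list L h
  have h2 : f = fun t => (L.map fun x => x.1 * p x.2 t).sum := funext e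
  rw [h2]
  exact h1

/-! ### The products with `p 1`, `p 2`, `p 3` -/

lemma m22 (t : ℝ) : p 2 t * p 2 t = 8 / 15 * p 0 t + 41 / 300 * p 2 t + 47 / 150 * p 3 t +
    1 / 60 * p 4 t := by
  have h1 := hx1 t
  have h2 := hx2 t
  have h3 := hx3 0 t
  have h4 := e2 t
  norm_num at h3
  linear_combination p 2 t * h4 + 5 / 3 * t * h2 + 1 / 3 * h3 + 4 / 3 * h1

lemma m23 (t : ℝ) : p 2 t * p 3 t = 1 / 75 * p 1 t + 47 / 3000 * p 2 t + 4861 / 6000 * p 3 t +
    47 / 300 * p 4 t + 1 / 240 * p 5 t := by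
  have h2 := hx2 t
  have h3 := hx3 0 t
  have h5 := hx3 1 t
  have h4 := e2 t
  norm_num at h3 h5
  linear_combination p 3 t * h4 + 5 / 3 * t * h3 + 1 / 12 * h5 + 47 / 30 * h3 + 1 / 60 * h2

lemma m2 (j : ℕ) (t : ℝ) : p 2 t * p (j + 4) t = 1 / 6000 * p (j + 2) t + 47 / 1500 * p (j + 3) t +
    2423 / 3000 * p (j + 4) t + 47 / 300 * p (j + 5) t + 1 / 240 * p (j + 6) t := by
  have h3 := hx3 j t
  have h4 := hx3 (j + 1) t
  have h5 := hx3 (j + 2) t
  have h6 := e2 t
  have e1 : j + 1 + 3 = j + 4 := rfl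
  have e2' : j + 2 + 3 = j + 5 := rfl
  have e3' : j + 1 + 4 = j + 5 := rfl
  have e4' : j + 2 + 4 = j + 6 := rfl
  have e5' : j + 1 + 2 = j + 3 := rfl
  have e6' : j + 2 + 2 = j + 4 := rfl
  rw [e1, e3', e5'] at h4
  rw [e2', e4', e6'] at h5
  linear_combination p (j + 4) t * h6 + 5 / 3 * t * h4 + 1 / 12 * h5 + 47 / 30 * h4 + 1 / 60 * h3

lemma m33 (t : ℝ) : p 3 t * p 3 t = 2 / 75 * p 0 t + 47 / 750 * p 1 t + 4861 / 120000 * p 2 t +
    4277 / 60000 * p 3 t + 8869 / 12000 * p 4 t + 47 / 800 * p 5 t + 1 / 960 * p 6 t := by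
  have h1 := hx1 t
  have h2 := hx2 t
  have h3 := hx3 0 t
  have h4 := hx3 1 t
  have h5 := hx3 2 t
  have h6 := m23 t
  have h7 := e3 t
  norm_num at h3 h4 h5
  linear_combination p 3 t * h7 + 5 * t * h6 + 1 / 15 * h1 + 47 / 600 * h2 +
    4861 / 1200 * h3 + 47 / 60 * h4 + 1 / 48 * h5 - 4 * h3

lemma m34 (t : ℝ) : p 3 t * p 4 t = 1 / 1500 * p 1 t + 47 / 30000 * p 2 t + 8869 / 60000 * p 3 t +
    517 / 10000 * p 4 t + 17723 / 24000 * p 5 t + 47 / 800 * p 6 t + 1 / 960 * p 7 t := by
  have h2 := hx2 t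
  have h3 := hx3 0 t
  have h4 := hx3 1 t
  have h5 := hx3 2 t
  have h8 := hx3 3 t
  have h6 := m2 0 t
  have h7 := e3 t
  norm_num at h3 h4 h5 h6 h8
  linear_combination p 4 t * h7 + 5 * t * h6 + 1 / 1200 * h2 + 47 / 300 * h3 +
    2423 / 600 * h4 + 47 / 60 * h5 + 1 / 48 * h8 - 4 * h4

lemma m3 (j : ℕ) (t : ℝ) : p 3 t * p (j + 5) t = 1 / 120000 * p (j + 2) t + 47 / 20000 * p (j + 3) t +
    17723 / 120000 * p (j + 4) t + 517 / 10000 * p (j + 5) t + 17723 / 24000 * p (j + 6) t +
    47 / 800 * p (j + 7) t + 1 / 960 * p (j + 8) t := by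
  have h3 := hx3 j t
  have h4 := hx3 (j + 1) t
  have h5 := hx3 (j + 2) t
  have h8 := hx3 (j + 3) t
  have h9 := hx3 (j + 4) t
  have h6 := m2 (j + 1) t
  have h7 := e3 t
  simp only [Nat.add_assoc, Nat.reduceAdd] at h3 h4 h5 h6 h8 h9
  linear_combination p (j + 5) t * h7 + 5 * t * h6 + 1 / 1200 * h3 + 47 / 300 * h4 +
    2423 / 600 * h5 + 47 / 60 * h8 + 1 / 48 * h9 - 4 * h5

/-! ### The general products -/

/-- the lower bound -/
noncomputable def F (k : ℕ) (t : ℝ) : ℝ :=
  1 / 1000 * p (k + 2) t + 1 / 50 * p (k + 3) t + 1 / 2 * p (k + 4) t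

/-- the difference which is constant along the antidiagonals -/
noncomputable def zz (m n : ℕ) (t : ℝ) : ℝ := p (m + 1) t * p (n + 1) t - 1 / 5 * (p m t * p n t)

lemma zz_step (m n : ℕ) (t : ℝ) : zz (m + 3) (n + 2) t = zz (m + 2) (n + 3) t := by
  unfold zz
  have h1 := hx3 m t
  have h2 := hx3 n t
  simp only [Nat.add_assoc, Nat.reduceAdd] at *
  linear_combination - 20 * p (n + 3) t * h1 + 20 * p (m + 3) t * h2

lemma zz_eq (j n : ℕ) (t : ℝ) : zz (j + 2) (n + 2) t = zz 2 (n + j + 2) t := by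
  induction j generalizing n with
  | zero => rfl
  | succ j ih =>
    have h1 := zz_step j n t
    have h2 := ih (n + 1)
    have e1 : j + 1 + 2 = j + 3 := rfl
    have e2 : n + (j + 1) + 2 = n + 1 + j + 2 := by omega
    have e3 : n + 1 + 2 = n + 3 := rfl
    rw [e1, h1, e2, ← h2, e3]

lemma base (n : ℕ) : K n (n + 6) fun t => p 3 t * p (n + 3) t - F n t := by
  match n with
  | 0 =>
    refine K.of_list [(2 / 75, 0), (47 / 750, 1), (4741 / 120000, 2), (3077 / 60000, 3),
      (2869 / 12000, 4), (47 / 800, 5), (1 / 960, 6)] ?_ fun t => ?_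
    · simp
      norm_num
    · simp only [F, List.map_cons, List.map_nil, List.sum_cons, List.sum_nil]
      have h := m33 t
      norm_num
      linear_combination h
  | 1 =>
    refine K.of_list [(1 / 1500, 1), (47 / 30000, 2), (8809 / 60000, 3), (317 / 10000, 4),
      (5723 / 24000, 5), (47 / 800, 6), (1 / 960, 7)] ?_ fun t => ?_
    · simp
      norm_num
    · simp only [F, List.map_cons, List.map_nil, List.sum_cons, List.sum_nil]
      have h := m34 t
      norm_num
      linear_combination h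
  | j + 2 =>
    refine K.of_list [(1 / 120000, j + 2), (47 / 20000, j + 3), (17603 / 120000, j + 4),
      (317 / 10000, j + 5), (5723 / 24000, j + 6), (47 / 800, j + 7), (1 / 960, j + 8)] ?_ fun t => ?_
    · simp only [List.mem_cons, List.not_mem_nil, or_false]
      rintro x (rfl | rfl | rfl | rfl | rfl | rfl | rfl) <;> refine ⟨by norm_num, ?_, ?_⟩ <;> omega
    · simp only [F, List.map_cons, List.map_nil, List.sum_cons, List.sum_nil]
      have h := m3 j t
      simp only [Nat.add_assoc, Nat.reduceAdd] at *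
      linear_combination h

lemma bracket (j : ℕ) : K (j + 2) (j + 8)
    fun t => 1 / 5 * F j t + zz 2 (j + 4) t - F (j + 2) t := by
  refine K.of_list [(7 / 40000, j + 2), (1 / 12000, j + 3), (10219 / 120000, j + 4),
    (11 / 30000, j + 5), (1901 / 8000, j + 6), (47 / 800, j + 7), (1 / 960, j + 8)] ?_ fun t => ?_
  · simp only [List.mem_cons, List.not_mem_nil, or_false]
    rintro x (rfl | rfl | rfl | rfl | rfl | rfl | rfl) <;> refine ⟨by norm_num, ?_, ?_⟩ <;> omega
  · simp only [F, zz, List.map_cons, List.map_nil, List.sum_cons, List.sum_nil]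
    have h := m3 j t
    have h' := m2 j t
    simp only [Nat.add_assoc, Nat.reduceAdd] at *
    linear_combination h - 1 / 5 * h'

lemma main (j : ℕ) : ∀ n, K n (n + 2 * j + 6) fun t => p (j + 3) t * p (n + j + 3) t - F (n + 2 * j) t := by
  induction j with
  | zero =>
    intro n
    exact base n
  | succ j ih =>
    intro n
    have h1 := (ih n).smul (r := 1 / 5) (by norm_num)
    have h2 := bracket (n + 2 * j)
    have h3 := (h1.mono (le_refl n) (show n + 2 * j + 6 ≤ n + 2 * (j + 1) + 6 by omega)).add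
      (h2.mono (show n ≤ n + 2 * j + 2 by omega)
        (show n + 2 * j + 8 ≤ n + 2 * (j + 1) + 6 by omega))
    have e : (fun t => p (j + 1 + 3) t * p (n + (j + 1) + 3) t - F (n + 2 * (j + 1)) t) =
        fun t => 1 / 5 * (p (j + 3) t * p (n + j + 3) t - F (n + 2 * j) t) +
          (1 / 5 * F (n + 2 * j) t + zz 2 (n + 2 * j + 4) t - F (n + 2 * j + 2) t) := by
      funext t
      have h4 := zz_eq (j + 1) (n + j + 1) t
      have e1 : n + j + 1 + (j + 1) + 2 = n + 2 * j + 4 := by omega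
      rw [e1] at h4
      have e2 : n + 2 * (j + 1) = n + 2 * j + 2 := by omega
      have e3 : n + (j + 1) + 3 = n + j + 1 + 2 + 1 := by omega
      have e4 : j + 1 + 3 = j + 1 + 2 + 1 := rfl
      have e5 : n + j + 3 = n + j + 1 + 2 := rfl
      have e6 : j + 3 = j + 1 + 2 := rfl
      rw [← h4, e2, e3, e4, e5, e6]
      unfold zz
      ring
    rw [e]
    exact h3

lemma F_mem (k : ℕ) : K (k + 2) (k + 4) (F k) := by
  refine K.of_list [(1 / 1000, k + 2), (1 / 50, k + 3), (1 / 2, k + 4)] ?_ fun t => ?_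
  · simp only [List.mem_cons, List.not_mem_nil, or_false]
    rintro x (rfl | rfl | rfl) <;> refine ⟨by norm_num, ?_, ?_⟩ <;> omega
  · simp only [F, List.map_cons, List.map_nil, List.sum_cons, List.sum_nil]
    ring

lemma prod_mem (m n : ℕ) : K n (n + 2 * m) fun t => p m t * p (n + m) t := by
  match m with
  | 0 =>
    have h : (fun t => p 0 t * p (n + 0) t) = p n := by
      funext t
      rw [p_zero, one_mul]
      rfl
    rw [h]
    exact K.single le_rfl (by omega)
  | 1 =>
    match n with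
    | 0 =>
      refine K.of_list [(2 / 5, 0), (3 / 5, 2)] ?_ fun t => ?_
      · simp
        norm_num
      · have h := hx1 t
        simp only [List.map_cons, List.map_nil, List.sum_cons, List.sum_nil]
        norm_num
        rw [p_one] at h ⊢
        linear_combination h
    | 1 =>
      refine K.of_list [(4 / 5, 1), (1 / 5, 3)] ?_ fun t => ?_
      · simp
        norm_num
      · have h := hx2 t
        simp only [List.map_cons, List.map_nil, List.sum_cons, List.sum_nil]
        norm_num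
        rw [p_one] at h ⊢
        linear_combination h
    | j + 2 =>
      refine K.of_list [(1 / 100, j + 2), (47 / 50, j + 3), (1 / 20, j + 4)] ?_ fun t => ?_
      · simp only [List.mem_cons, List.not_mem_nil, or_false]
        rintro x (rfl | rfl | rfl) <;> refine ⟨by norm_num, ?_, ?_⟩ <;> omega
      · have h := hx3 j t
        simp only [List.map_cons, List.map_nil, List.sum_cons, List.sum_nil]
        rw [p_one]
        simp only [Nat.add_assoc, Nat.reduceAdd] at *
        linear_combination h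
  | 2 =>
    match n with
    | 0 =>
      refine K.of_list [(8 / 15, 0), (41 / 300, 2), (47 / 150, 3), (1 / 60, 4)] ?_ fun t => ?_
      · simp
        norm_num
      · have h := m22 t
        simp only [List.map_cons, List.map_nil, List.sum_cons, List.sum_nil]
        norm_num
        linear_combination h
    | 1 =>
      refine K.of_list [(1 / 75, 1), (47 / 3000, 2), (4861 / 6000, 3), (47 / 300, 4), (1 / 240, 5)]
        ?_ fun t => ?_
      · simp
        norm_num
      · have h := m23 t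
        simp only [List.map_cons, List.map_nil, List.sum_cons, List.sum_nil]
        norm_num
        linear_combination h
    | j + 2 =>
      refine K.of_list [(1 / 6000, j + 2), (47 / 1500, j + 3), (2423 / 3000, j + 4), (47 / 300, j + 5),
        (1 / 240, j + 6)] ?_ fun t => ?_
      · simp only [List.mem_cons, List.not_mem_nil, or_false]
        rintro x (rfl | rfl | rfl | rfl | rfl) <;> refine ⟨by norm_num, ?_, ?_⟩ <;> omega
      · have h := m2 j t
        simp only [List.map_cons, List.map_nil, List.sum_cons, List.sum_nil]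
        simp only [Nat.add_assoc, Nat.reduceAdd] at *
        linear_combination h
  | j + 3 =>
    have h1 := main j n
    have h2 := (F_mem (n + 2 * j)).mono (show n ≤ n + 2 * j + 2 by omega)
      (show n + 2 * j + 4 ≤ n + 2 * j + 6 by omega)
    have h3 := h1.add h2
    have e : (fun t => p (j + 3) t * p (n + (j + 3)) t) =
        fun t => p (j + 3) t * p (n + j + 3) t - F (n + 2 * j) t + F (n + 2 * j) t := by
      funext t
      rw [sub_add_cancel, Nat.add_assoc]
    rw [e]
    exact h3.mono le_rfl (by omega)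

lemma isHypergroup : IsHypergroup P := by
  intro m n hmn
  obtain ⟨g, hg, e⟩ := prod_mem m (n - m)
  refine ⟨g, hg, ?_⟩
  have e1 : n - m + m = n := Nat.sub_add_cancel hmn
  have e2 : n - m + 2 * m = n + m := by omega
  rw [e1, e2] at e
  apply Polynomial.funext
  intro t
  rw [Polynomial.eval_mul, Polynomial.eval_finsetSum]
  have h : (P m).eval t * (P n).eval t = ∑ k ∈ Icc (n - m) (n + m), g k * (P k).eval t := e t
  rw [h]
  refine sum_congr rfl fun k _ => ?_
  rw [Polynomial.eval_mul, Polynomial.eval_C]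

/-- **Theorem.** There is a polynomial hypergroup with the Haar weight `h(2) = 15/8 < 2`. -/
theorem result : ∃ (a b c : ℕ → ℝ) (P : ℕ → ℝ[X]), PolySeq a b c P ∧ IsHypergroup P ∧
    haar a c 2 = 15 / 8 ∧ haar a c 2 < 2 := by
  have h : haar a c 2 = 15 / 8 := by
    unfold haar
    have e1 : Ico 1 2 = {1} := by decide
    have e2 : Icc 1 2 = {1, 2} := by decide
    rw [e1, e2, prod_singleton, prod_pair (by decide)]
    norm_num [a, c]
  refine ⟨a, b, c, P, polySeq, isHypergroup, h, ?_⟩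
  rw [h]
  norm_num

end Pool.Agent.Results.MP_382e70_an.SmallHaarWeight
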